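import Pool.Agent.W702.KP.KPSym

/-!
KP-ARM: isolated edge implies an arm.
-/

namespace Pool.Agent.W702.KP.ArmT

open H974 H12S H973N Finset Pool.Agent.W810.KP Pool.Agent.W702.KP.Sym

theorem mem_RE_bd {a b c d : ℤ} {h : Edg} (hh : h ∈ RE a b c d) :
    (a ≤ h.1 ∧ h.1 ≤ b) ∧ (c ≤ h.2.1 ∧ h.2.1 ≤ d) := by
  unfold RE at hh
  rw [Finset.mem_filter, Finset.mem_product, Finset.mem_product, Finset.mem_Icc,
    Finset.mem_Icc] at hh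
  exact ⟨hh.1.1, hh.1.2.1⟩

theorem not_mem_of_dst {e h : Edg} {ρ : ℕ} (hd : (ρ:ℤ) + 1 ≤ dst e h) :
    h ∉ RE (e.1 - ρ) (e.1 + ρ) (e.2.1 - ρ) (e.2.1 + ρ) := by
  intro hh
  have h1 := mem_RE_bd hh
  unfold dst at hd
  have h2 : |e.1 - h.1| ≤ ρ := by rw [abs_le]; omega
  have h3 : |e.2.1 - h.2.1| ≤ ρ := by rw [abs_le]; omega
  have h4 := max_le h2 h3
  omega

theorem tgt_fst (g : Edg) : (tgt g).1 = g.1 ∨ (tgt g).1 = g.1 + 1 := by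
  unfold tgt
  split_ifs
  · exact Or.inr rfl
  · exact Or.inl rfl

theorem tgt_snd (g : Edg) : (tgt g).2 = g.2.1 ∨ (tgt g).2 = g.2.1 + 1 := by
  unfold tgt
  split_ifs
  · exact Or.inl rfl
  · exact Or.inr rfl

theorem out_of_dst {e g : Edg} {ρ : ℕ} (hd : (ρ:ℤ) + 1 ≤ dst e g) (v : Vtx)
    (h1 : v.1 = g.1 ∨ v.1 = g.1 + 1) (h2 : v.2 = g.2.1 ∨ v.2 = g.2.1 + 1) :
    v.1 ≤ e.1 - ρ ∨ e.1 + ρ ≤ v.1 ∨ v.2 ≤ e.2.1 - ρ ∨ e.2.1 + ρ ≤ v.2 := by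
  unfold dst at hd
  rcases le_max_iff.1 hd with h3 | h3
  · rcases le_abs.1 h3 with h4 | h4
    · left; omega
    · right; left; omega
  · rcases le_abs.1 h3 with h4 | h4
    · right; right; left; omega
    · right; right; right; omega

theorem key {e g h : Edg} {ρ : ℕ} (hg : (ρ:ℤ) + 1 ≤ dst e g)
    (hh : (ρ:ℤ) + 1 ≤ dst e h) {F F' : Finset Edg} (hF' : F' ⊆ insert h F)
    (hP : Pf (Con e) g F') :
    ∃ u : Vtx, (u.1 ≤ (src e).1 - ρ ∨ (src e).1 + ρ ≤ u.1 ∨ u.2 ≤ (src e).2 - ρ ∨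
      (src e).2 + ρ ≤ u.2) ∧ Reach (↑F) (src e) u := by
  have heg : e ≠ g := by
    rintro rfl
    unfold dst at hg
    simp at hg
    omega
  have h1 := (Pf_iff heg F').1 hP
  obtain ⟨v, hv1, hv2, hv⟩ : ∃ v : Vtx, (v.1 = g.1 ∨ v.1 = g.1 + 1) ∧
      (v.2 = g.2.1 ∨ v.2 = g.2.1 + 1) ∧ Reach ((↑F' : Set Edg) \ {e, g}) (src e) v := by
    rcases h1.1 with h2 | h2
    · exact ⟨src g, Or.inl rfl, Or.inl rfl, h2.1⟩
    · exact ⟨tgt g, tgt_fst g, tgt_snd g, h2.1⟩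
  have hin : inR (e.1 - ρ) (e.1 + ρ) (e.2.1 - ρ) (e.2.1 + ρ) (src e) := by
    unfold inR src
    simp
  obtain ⟨w, -, hw, hr⟩ := first_exit hin hv (out_of_dst hg v hv1 hv2)
  refine ⟨w, ?_, hr.mono ?_⟩
  · show w.1 ≤ e.1 - ρ ∨ e.1 + ρ ≤ w.1 ∨ w.2 ≤ e.2.1 - ρ ∨ e.2.1 + ρ ≤ w.2
    rcases hw with hw | hw | hw | hw
    · exact Or.inl hw.le
    · exact Or.inr (Or.inl hw.ge)
    · exact Or.inr (Or.inr (Or.inl hw.le))
    · exact Or.inr (Or.inr (Or.inr hw.ge))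
  · rintro x ⟨⟨hx1, -⟩, hx2⟩
    have hx3 := hF' (Finset.mem_coe.1 hx1)
    rcases Finset.mem_insert.1 hx3 with h3 | h3
    · exact absurd (h3 ▸ Finset.mem_coe.1 hx2) (not_mem_of_dst hh)
    · exact Finset.mem_coe.2 h3

theorem main : Pool.Agent.W810.KP.S_arm := by
  intro q h0 h1 S e g h ρ _ hg hh
  refine le_trans ?_ (arm_bound h0 h1 S (src e) ρ)
  apply Pr_mono (okq h0 h1)
  intro F _ hT
  unfold T3 at hT
  by_cases hP : Pf (Con e) g (insert h F)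
  · exact key hg hh (le_refl _) hP
  · have hP2 : Pf (Con e) g (F.erase h) := by
      by_contra h3
      exact hT ⟨fun h4 => absurd h4 hP, fun h4 => absurd h4 h3⟩
    exact key hg hh ((Finset.erase_subset _ _).trans (Finset.subset_insert _ _)) hP2

end Pool.Agent.W702.KP.ArmT
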