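import Pool.Agent.W810.KP.Defs
import Pool.Agent.H12R2.Sep.Loc

/-!
KP-SYM: symmetry of the third difference.
-/

namespace Pool.Agent.W702.KP.Sym

open H974 H12S H973N Finset Pool.Agent.W810.KP

theorem Con_mono {e : Edg} {F G : Finset Edg} (h : F ⊆ G) (hF : Con e F) : Con e G :=
  Reach.mono (by exact_mod_cast Finset.erase_subset_erase e h) hF

/-- the symmetric condition -/
def SymC (G : Set Edg) (e g : Edg) : Prop :=
  ((Reach G (src e) (src g) ∧ Reach G (tgt e) (tgt g)) ∨
    (Reach G (src e) (tgt g) ∧ Reach G (tgt e) (src g))) ∧ ¬ Reach G (src e) (tgt e)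

theorem SymC_symm {G : Set Edg} {e g : Edg} (h : SymC G e g) : SymC G g e := by
  obtain ⟨h1, h2⟩ := h
  rcases h1 with ⟨h3, h4⟩ | ⟨h3, h4⟩
  · exact ⟨Or.inl ⟨h3.symm, h4.symm⟩, fun h5 => h2 ((h3.trans h5).trans h4.symm)⟩
  · exact ⟨Or.inr ⟨h4.symm, h3.symm⟩, fun h5 => h2 ((h3.trans h5.symm).trans h4.symm)⟩

theorem Pf_iff {e g : Edg} (heg : e ≠ g) (F : Finset Edg) :
    Pf (Con e) g F ↔ SymC ((↑F : Set Edg) \ {e, g}) e g := by
  have h1 : (↑((insert g F).erase e) : Set Edg) = insert g ((↑F : Set Edg) \ {e}) := by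
    ext x
    simp only [coe_erase, coe_insert, Set.mem_sdiff, Set.mem_insert_iff, Set.mem_singleton_iff,
      mem_coe]
    constructor
    · rintro ⟨h | h, h'⟩
      · exact Or.inl h
      · exact Or.inr ⟨h, h'⟩
    · rintro (h | ⟨h, h'⟩)
      · exact ⟨Or.inl h, by rw [h]; exact fun h'' => heg h''.symm⟩
      · exact ⟨Or.inr h, h'⟩
  have h2 : ((↑F : Set Edg) \ {e}) \ {g} = (↑F : Set Edg) \ {e, g} := by
    ext x
    simp only [Set.mem_sdiff, Set.mem_insert_iff, Set.mem_singleton_iff, not_or]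
    tauto
  have h3 : (↑((F.erase g).erase e) : Set Edg) = (↑F : Set Edg) \ {e, g} := by
    ext x
    simp only [coe_erase, Set.mem_sdiff, Set.mem_insert_iff, Set.mem_singleton_iff, not_or]
    tauto
  have hsub : (↑F : Set Edg) \ {e, g} ⊆ insert g ((↑F : Set Edg) \ {e}) := by
    rw [← h2]
    exact Set.sdiff_subset.trans (Set.subset_insert _ _)
  have hgr : Reach (insert g ((↑F : Set Edg) \ {e})) (src g) (tgt g) :=
    Adj.reach ⟨g, Set.mem_insert _ _, Or.inl ⟨rfl, rfl⟩⟩
  unfold Pf Pool.Agent.W810.KP.Con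
  rw [h1, h3]
  constructor
  · rintro ⟨h4, h5⟩
    rcases reach_insert h4 with h6 | ⟨h6, h7⟩ | ⟨h6, h7⟩
    · rw [h2] at h6
      exact absurd h6 h5
    · rw [h2] at h6 h7
      exact ⟨Or.inl ⟨h6, h7.symm⟩, h5⟩
    · rw [h2] at h6 h7
      exact ⟨Or.inr ⟨h6, h7.symm⟩, h5⟩
  · rintro ⟨h4 | h4, h5⟩
    · exact ⟨((h4.1.mono hsub).trans hgr).trans (h4.2.mono hsub).symm, h5⟩
    · exact ⟨((h4.1.mono hsub).trans hgr.symm).trans (h4.2.mono hsub).symm, h5⟩

theorem Pf_symm {e g : Edg} (heg : e ≠ g) (F : Finset Edg) :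
    Pf (Con e) g F ↔ Pf (Con g) e F := by
  rw [Pf_iff heg, Pf_iff heg.symm, Set.pair_comm g e]
  exact ⟨SymC_symm, SymC_symm⟩

theorem main : Pool.Agent.W810.KP.S_sym := by
  intro e g h heg heh hgh F
  constructor
  · unfold T3
    rw [Pf_symm heg, Pf_symm heg]
  · unfold T3 Pf
    have e1 : (insert h F).erase g = insert h (F.erase g) :=
      Finset.erase_insert_of_ne hgh.symm
    have e2 : (insert g F).erase h = insert g (F.erase h) :=
      Finset.erase_insert_of_ne hgh
    have e3 : insert h (insert g F) = insert g (insert h F) := Finset.insert_comm _ _ _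
    have e4 : (F.erase g).erase h = (F.erase h).erase g := Finset.erase_right_comm
    rw [e1, e2, e3, e4]
    have m1 : Con e ((F.erase h).erase g) → Con e (insert g (F.erase h)) :=
      Con_mono ((Finset.erase_subset _ _).trans (Finset.subset_insert _ _))
    have m2 : Con e ((F.erase h).erase g) → Con e (insert h (F.erase g)) := by
      apply Con_mono
      rw [← e4]
      exact (Finset.erase_subset _ _).trans (Finset.subset_insert _ _)
    have m3 : Con e (insert g (F.erase h)) → Con e (insert g (insert h F)) :=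
      Con_mono (Finset.insert_subset_insert _ ((Finset.erase_subset _ _).trans
        (Finset.subset_insert _ _)))
    have m4 : Con e (insert h (F.erase g)) → Con e (insert g (insert h F)) := by
      apply Con_mono
      rw [← e3]
      exact Finset.insert_subset_insert _ ((Finset.erase_subset _ _).trans
        (Finset.subset_insert _ _))
    tauto

end Pool.Agent.W702.KP.Sym
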